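import Pool.Agent.helper22.GS.Spec

/-! Project gs: (MP_561ff4_al): module BC: a commutator. -/

set_option autoImplicit false

namespace Pool.Agent.GS

open Module

/-- the map `x ↦ x + B(x,ρ) s0 + B(x,s0) ρ` -/
def BC_t {F V : Type} [Field F] [AddCommGroup V] [Module F V] (B : LinearMap.BilinForm F V)
    (hB : Alt B) (s0 ρ : V) (h : B s0 ρ = 0) : Equiv.Perm V where
  toFun x := x + B x ρ • s0 + B x s0 • ρ
  invFun x := x - B x ρ • s0 - B x s0 • ρ
  left_inv := by
    intro x
    have h' : B ρ s0 = 0 := by rw [hB.neg, h, neg_zero]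
    simp only [map_add, LinearMap.add_apply, map_smul, LinearMap.smul_apply, h, h', hB.alt,
      smul_zero, add_zero]
    abel
  right_inv := by
    intro x
    have h' : B ρ s0 = 0 := by rw [hB.neg, h, neg_zero]
    simp only [map_sub, LinearMap.sub_apply, map_smul, LinearMap.smul_apply, h, h', hB.alt,
      smul_zero, sub_zero]
    abel

theorem BC_t_apply {F V : Type} [Field F] [AddCommGroup V] [Module F V]
    (B : LinearMap.BilinForm F V) (hB : Alt B) (s0 ρ : V) (h : B s0 ρ = 0) (x : V) :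
    BC_t B hB s0 ρ h x = x + B x ρ • s0 + B x s0 • ρ := rfl

theorem BC_t_inv {F V : Type} [Field F] [AddCommGroup V] [Module F V]
    (B : LinearMap.BilinForm F V) (hB : Alt B) (s0 ρ : V) (h : B s0 ρ = 0) (x : V) :
    (BC_t B hB s0 ρ h)⁻¹ x = x - B x ρ • s0 - B x s0 • ρ := rfl

theorem BC_t_mem {F V : Type} [Field F] [AddCommGroup V] [Module F V]
    (B : LinearMap.BilinForm F V) (hB : Alt B) (s0 ρ : V) (h : B s0 ρ = 0) :
    BC_t B hB s0 ρ h ∈ SpG B := by
  have h' : B ρ s0 = 0 := by rw [hB.neg, h, neg_zero]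
  refine ⟨⟨fun u v => ?_, fun c v => ?_⟩, fun u v => ?_⟩
  · simp only [BC_t_apply, map_add, LinearMap.add_apply, add_smul]
    abel
  · simp only [BC_t_apply, map_smul, LinearMap.smul_apply, smul_add, smul_smul, smul_eq_mul]
  · simp only [BC_t_apply, map_add, LinearMap.add_apply, map_smul, LinearMap.smul_apply,
      smul_eq_mul, h, h', hB.alt, mul_zero, add_zero]
    rw [hB.neg s0 v, hB.neg ρ v]
    ring

theorem BC : BC_stmt := by
  intro F V _ _ _ B hB z hz y lam hlam hy s0 d ρ hs hρ h0 hd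
  have h0' : B ρ s0 = 0 := by rw [hB.neg, h0, neg_zero]
  refine ⟨BC_t B hB s0 ρ h0, BC_t_mem B hB s0 ρ h0, fun x => ?_⟩
  set t := BC_t B hB s0 ρ h0 with ht
  have key : ∀ x', (y * t * y⁻¹) x' = x' + B x' ρ • (s0 + d) + B x' (s0 + d) • ρ := by
    intro x'
    have hw : y (y⁻¹ x') = x' := pinv y x'
    set w := y⁻¹ x' with hwdef
    have h1 : B x' ρ = lam * B w ρ := by
      rw [← hw, hy, map_smul, LinearMap.smul_apply, smul_eq_mul]
      congr 1
      conv_lhs => rw [← hρ]
      exact hz.2 _ _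
    have h2 : B x' (s0 + d) = lam * B w s0 := by
      rw [← hw, hy, map_smul, LinearMap.smul_apply, smul_eq_mul, ← hs]
      congr 1
      exact hz.2 _ _
    have h3 : (y * t * y⁻¹) x' = y (t w) := rfl
    rw [h3, hy, ht, BC_t_apply, hz.1.1, hz.1.1, hz.1.2, hz.1.2, hs, hρ, smul_add, smul_add,
      smul_smul, smul_smul, ← hy, hw, h1, h2]
  have h3 : (y * t * y⁻¹ * t⁻¹) x = (y * t * y⁻¹) (t⁻¹ x) := rfl
  rw [h3, key, ht, BC_t_inv]
  simp only [map_sub, LinearMap.sub_apply, map_smul, LinearMap.smul_apply, h0, h0', hB.alt, hd,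
    map_add, smul_zero, sub_zero, add_zero, zero_add, smul_eq_mul]
  simp only [sub_smul, add_smul, smul_add, mul_zero, zero_smul, sub_zero, add_zero]
  rw [mul_comm (B x ρ) (B s0 d)]
  abel

end Pool.Agent.GS
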