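import Pool.Agent.helper22.GS.Spec

/-! Project gs: (MP_561ff4_al): module CW: Chevalley - Warning. -/

set_option autoImplicit false

namespace Pool.Agent.GS

open Module

theorem CW : CW_stmt := by
  classical
  intro F W _ _ _ _ _ b hW
  have := Fintype.ofFinite F
  let e := finBasis F W
  let f : MvPolynomial (Fin (finrank F W)) F :=
    ∑ i, ∑ j, MvPolynomial.C (b (e i) (e j)) * (MvPolynomial.X i * MvPolynomial.X j)
  have hdeg : f.totalDegree < Fintype.card (Fin (finrank F W)) := by
    rw [Fintype.card_fin]
    refine lt_of_le_of_lt ?_ hW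
    refine (MvPolynomial.totalDegree_finset_sum _ _).trans (Finset.sup_le fun i _ => ?_)
    refine (MvPolynomial.totalDegree_finset_sum _ _).trans (Finset.sup_le fun j _ => ?_)
    refine (MvPolynomial.totalDegree_mul _ _).trans ?_
    rw [MvPolynomial.totalDegree_C, zero_add]
    refine (MvPolynomial.totalDegree_mul _ _).trans ?_
    rw [MvPolynomial.totalDegree_X, MvPolynomial.totalDegree_X]
  have hev : ∀ w : W, MvPolynomial.eval (e.equivFun w) f = b w w := by
    intro w
    conv_rhs => rw [← e.sum_equivFun w]
    simp only [f, map_sum, map_mul, MvPolynomial.eval_C, MvPolynomial.eval_X, map_smul,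
      LinearMap.sum_apply, LinearMap.smul_apply, smul_eq_mul]
    rw [Finset.sum_comm]
    refine Finset.sum_congr rfl fun i _ => ?_
    rw [Finset.mul_sum]
    exact Finset.sum_congr rfl fun j _ => by ring
  have hdvd : ringChar F ∣ Nat.card {w : W // b w w = 0} := by
    have h := char_dvd_card_solutions (ringChar F) hdeg
    have hcard : Nat.card {w : W // b w w = 0} =
        Fintype.card { x : Fin (finrank F W) → F // MvPolynomial.eval x f = 0 } := by
      rw [← Nat.card_eq_fintype_card]
      refine Nat.card_congr (e.equivFun.toEquiv.subtypeEquiv fun w => ?_)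
      show b w w = 0 ↔ MvPolynomial.eval (e.equivFun w) f = 0
      rw [hev]
    rwa [hcard]
  refine ⟨?_, hdvd⟩
  by_contra hno
  push Not at hno
  have hone : Nat.card {w : W // b w w = 0} = 1 := by
    rw [Nat.card_eq_one_iff_unique]
    refine ⟨⟨fun u v => ?_⟩, ⟨⟨0, by simp⟩⟩⟩
    have h0 : ∀ u : {w : W // b w w = 0}, (u : W) = 0 := fun u => by
      by_contra h
      exact hno u h u.2
    exact Subtype.ext ((h0 u).trans (h0 v).symm)
  rw [hone] at hdvd
  have hp : (ringChar F).Prime := CharP.char_is_prime F (ringChar F)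
  exact hp.one_lt.ne' (Nat.dvd_one.1 hdvd)

end Pool.Agent.GS
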